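import Pool.Agent.W500.FL.Stm

set_option autoImplicit false

namespace Pool.Agent.W460.FL.DEL

open Polynomial Pool.Agent.W500.FL

theorem main : S_DEL := by
  intro K _ p hpF _ V A hV hA hVA
  have hp : p.Prime := hpF.out
  constructor
  · intro d hd hd' hdV hd'V hdeg
    have hm : d.leadingCoeff ≠ 0 := leadingCoeff_ne_zero.mpr hd
    have hb : (C (d.leadingCoeff)⁻¹ * d).Monic :=
      monic_C_mul_of_mul_leadingCoeff_eq_one (inv_mul_cancel₀ hm)
    have hdb : d = C d.leadingCoeff * (C (d.leadingCoeff)⁻¹ * d) := by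
      rw [← mul_assoc, ← C_mul, mul_inv_cancel₀ hm, C_1, one_mul]
    generalize C (d.leadingCoeff)⁻¹ * d = b at hb hdb
    generalize d.leadingCoeff = m at hm hdb
    have hbA : b ∣ A := (Dvd.intro_left _ hdb.symm).trans (hdV.trans hVA)
    obtain ⟨c, hc⟩ := hbA
    obtain ⟨q, hq⟩ : ∃ q, p = q + 2 := ⟨p - 2, by have := hp.two_le; omega⟩
    have hbD : b * (c * A ^ (q + 1) + C m) = A ^ p + d := by
      rw [hq]
      linear_combination A ^ (q + 1) * (-hc) - hdb
    have hVD : V ∣ (c * A ^ (q + 1) + C m) - C m := by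
      rw [add_sub_cancel_right]
      exact (hVA.trans (dvd_pow_self A (by omega))).mul_left c
    generalize c * A ^ (q + 1) + C m = Δ at hbD hVD
    have hcop : IsCoprime Δ V := by
      obtain ⟨k, hk⟩ := hVD
      have h1 : Δ = C m + V * k := by linear_combination hk
      rw [h1]
      refine IsCoprime.add_mul_left_left ?_ k
      exact ⟨C m⁻¹, 0, by rw [zero_mul, add_zero, ← C_mul, inv_mul_cancel₀ hm, C_1]⟩
    have hdegA : d.natDegree < (A ^ p).natDegree := by
      rw [hA.natDegree_pow]
      calc d.natDegree < A.natDegree := hdeg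
        _ ≤ p * A.natDegree := Nat.le_mul_of_pos_left _ hp.pos
    have hmon : (A ^ p + d).Monic := (hA.pow p).add_of_left (degree_lt_degree hdegA)
    have hΔ : Δ.Monic := hb.of_mul_monic_left (by rw [hbD]; exact hmon)
    refine ⟨Δ, b, m, hm, hb, hdb, hΔ, hbD, hVD, ?_, hcop, ?_⟩
    · intro x hx
      refine hcop.isUnit_of_dvd' ((dvd_mul_right x x).trans hx) ?_
      have h1 : x * x ∣ A ^ p + d := by
        rw [← hbD]
        exact hx.mul_left b
      obtain ⟨k, hk⟩ := h1
      have h2 : derivative (A ^ p + d) = derivative d := by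
        rw [derivative_add, derivative_pow, CharP.cast_eq_zero K p, C_0, zero_mul, zero_mul,
          zero_add]
      have h3 : derivative d = x * (2 * derivative x * k + x * derivative k) := by
        rw [← h2, hk, derivative_mul, derivative_mul]
        ring
      exact (Dvd.intro _ h3.symm).trans hd'V
    · have h1 : (b * Δ).natDegree = b.natDegree + Δ.natDegree := hb.natDegree_mul hΔ
      have h2 : (A ^ p + d).natDegree = p * A.natDegree := by
        rw [natDegree_add_eq_left_of_natDegree_lt hdegA, hA.natDegree_pow]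
      have h3 : d.natDegree = b.natDegree := by
        rw [hdb]
        exact natDegree_C_mul hm
      rw [hbD, h2] at h1
      omega
  · intro d e Δ b Δ' b' h1 h2 h3 h4
    obtain ⟨u, v, huv⟩ := h3.of_isCoprime_of_dvd_right h4
    refine ⟨u + v * b, -v * b', ?_⟩
    linear_combination huv + v * h1 - v * h2

end Pool.Agent.W460.FL.DEL
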